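import Mathlib
import Pool.Agent.N675.DivAvg

/-!
Averages of dilated Liouville correlations over the divisors of a highly divisible number,
at every scale, with uniformity in the scale.
-/

/-- For every order `k`, all linear forms `a i * n + b i * d` with `a i ≥ 1`, and every `ε > 0`
there is `K` such that for every `Q ≥ 1` divisible by `p ^ K` for all primes `p ≤ K` and every
`x ≥ K`, the sum over the divisors `d` of `Q` of
`λ(d)^(k+1) * ∑_{n ≤ x} ∏_i λ(a i * n + b i * d)` is at most `ε * x * τ(Q)` in absolute value. -/
theorem Pool.Agent.Results.MP_a14ce1_nt.DivisorAverages.result :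
    ∀ (k : ℕ) (a b : Fin k → ℕ), (∀ i, 0 < a i) → ∀ ε : ℝ, 0 < ε →
      ∃ K : ℕ, ∀ Q : ℕ, 0 < Q → (∀ p : ℕ, p.Prime → p ≤ K → p ^ K ∣ Q) →
        ∀ x : ℕ, K ≤ x →
          |∑ d ∈ Q.divisors, ((-1 : ℝ) ^ ArithmeticFunction.cardFactors d) ^ (k + 1) *
              ∑ n ∈ Finset.Icc 1 x,
                ∏ i : Fin k, (-1 : ℝ) ^ ArithmeticFunction.cardFactors (a i * n + b i * d)|
            ≤ ε * x * Q.divisors.card :=
  fun _ a b ha ε hε =>
    (Pool.Agent.N675.DivAvg.main a b ha ε hε).imp fun _ h => h.2

/- claim file of this theorem while it was in Results/MP_a14ce1_nt: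
Proves: For every k, all integers a_1..a_k >= 1, b_1..b_k >= 0 and every eps > 0 there is K such that, for every Q >= 1 divisible by p^K for all primes p <= K and for EVERY integer x >= K, |sum_{d|Q} λ(d)^(k+1) sum_{1<=n<=x} λ(a_1 n + b_1 d)...λ(a_k n + b_k d)| <= eps·x·τ(Q), τ(Q) the number of divisors of Q; with a_i = 1, b_i = i-1 the inner sum is S_k dilated by d, and for odd k the weight λ(d)^(k+1) is 1.
Definitions: none
Relation: Partial answer to Q1. The natural (not logarithmic) averages of the dilated products λ(n)λ(n+d)...λ(n+(k-1)d) cancel on average over the divisors d of a fixed highly divisible Q, with no exceptional scales x and uniformly in x and Q, for every odd k; for even k the same holds with the weight λ(d). The known results on odd orders (Tao, Tao-Teravainen) are logarithmic or hold at almost all scales; the input here is Turan-Kubilius with the dilations n -> pn, d -> pd for the primes p dividing Q, plus the prime number theorem to compare p with products of two primes. It does not treat a fixed single shift such as d = 1.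

-/
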