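import Mathlib
import Pool.Agent.N675.AllFinal

/-!
Dilated products of consecutive values of the Liouville function, of every order, twisted by
additive characters: a large twisted average forces the frequencies into major arcs.
-/

open Finset

namespace Pool.Agent.Results.MP_a14ce1_nt.MinorArcTwists

/-- Let `ψ` be any system of `k` nonzero integer linear forms in `m` variables, `k` arbitrary (for
example `n + i d`, `i < k`, in the variables `n, d`). For every `ε > 0` there are `Q` and `K` such
that for all side lengths `B s ≥ K` (in any relation to each other) and all real frequencies `θ`: if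
the sum over the box `1 ≤ y s ≤ B s` of `e(θ · y) ∏ i, λ(|ψ i (y)|)` is larger than `ε` times the
volume of the box, then there is one `q ≤ Q`, `q ≥ 1`, such that every `q θ s` is within `Q / B s`
of an integer. -/
theorem result :
    ∀ (m k : ℕ) (ψ : Fin k → Fin m → ℤ), (∀ i, ψ i ≠ 0) → ∀ ε : ℝ, 0 < ε →
      ∃ Q K : ℕ, ∀ B : Fin m → ℕ, (∀ s, K ≤ B s) → ∀ θ : Fin m → ℝ,
        ε * ∏ s, (B s : ℝ) <
          ‖∑ y ∈ Fintype.piFinset (fun s => Finset.Icc (1 : ℤ) (B s)),
            Complex.exp (2 * Real.pi * Complex.I * ((∑ s, θ s * y s : ℝ) : ℂ)) *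
              ∏ i, (-1 : ℂ) ^ ArithmeticFunction.cardFactors (∑ s, ψ i s * y s).natAbs‖ →
        ∃ q : ℕ, 1 ≤ q ∧ q ≤ Q ∧ ∀ s, ∃ a : ℤ, |(q : ℝ) * θ s - a| ≤ Q / B s := by
  intro m k ψ hψ ε hε
  obtain ⟨Q, K, hK⟩ := Pool.Agent.N675.minor_final ψ hψ ε hε
  refine ⟨Q, K, fun B hB θ hθ => ?_⟩
  have h0 : ‖∑ y ∈ Fintype.piFinset (fun s => Finset.Icc (1 : ℤ) (B s)),
            Complex.exp (2 * Real.pi * Complex.I * ((∑ s, θ s * y s : ℝ) : ℂ)) *
              ∏ i, (-1 : ℂ) ^ ArithmeticFunction.cardFactors (∑ s, ψ i s * y s).natAbs‖
      = ‖∑ y ∈ Pool.Agent.N675.Box B, Pool.Agent.N675.eR (∑ s, θ s * y s)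
        * ∏ i, ((Pool.Agent.N675.lamA (Pool.Agent.N675.LL ψ i y) : ℝ) : ℂ)‖ := by
    unfold Pool.Agent.N675.Box Pool.Agent.N675.LL Pool.Agent.N675.lamA Pool.Agent.N675.eR
    congr 1
    refine Finset.sum_congr rfl fun y _ => ?_
    congr 1
    · congr 1
      push_cast
      ring
    · push_cast
      rfl
  rw [h0] at hθ
  obtain ⟨q, h1, h2, h3⟩ := hK B hB θ hθ
  exact ⟨q, h1, h2, fun s => ⟨_, h3 s⟩⟩

end Pool.Agent.Results.MP_a14ce1_nt.MinorArcTwists

/- claim file of this theorem while it was in Results/MP_a14ce1_nt:
Proves: Let psi_1..psi_k be any nonzero integer linear forms in m variables, k arbitrary (e.g. n, n+d, ..., n+(k-1)d in the variables n, d). For every eps > 0 there are Q and K such that for all side lengths B_1..B_m >= K (in any relation to each other) and all real θ_1..θ_m: if |sum over y in [1,B_1]x...x[1,B_m] of e(θ·y) λ(|psi_1(y)|)...λ(|psi_k(y)|)| > eps·B_1···B_m, where e(x) = exp(2πix) and λ(0) = 1 where a form vanishes, then for some 1 <= q <= Q every qθ_s lies within Q/B_s of an integer.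
Definitions: none
Relation: Partial, about Q1 with a dilation parameter d and a twist: for EVERY k, even k included, and every irrational β, sum_{d<=D} e(dβ) sum_{n<=x} λ(n)λ(n+d)...λ(n+(k-1)d) = o(xD) as x, D tend to infinity independently (D arbitrarily slowly), at every scale x; more generally the product of k Liouville values has no large Fourier coefficient on boxes off the major arcs. The untwisted average over d is settled for odd k by MP_715a43_nt.OddOrderAllBoxes; for even k >= 4 it remains open, as does d = 1 (no averaging). For k = 1 this is Davenport's theorem, for k = 2 it follows from Matomaki-Radziwill-Tao; for D > x^c from higher uniformity in short intervals. Proof: entropy decrement for all windows at once (dilation principle for all but a bounded mass of primes p), then the large sieve for the frequencies pθ.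

-/
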